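import Pool.Agent.Helper37_BSig.Stmts

/-!
# BSIG: FactW
-/

namespace Pool.Agent.BSig

open Filter Cardinal

namespace H3

theorem two_mk : (2 : MM) = mk (fun _ => 2) (bdd_const 2) := by
  have h := natCast_mk 2
  rw [← h]
  norm_num

theorem split_inj {K K' i i' : MM} (hi : i = 0 ∨ i = 1) (hi' : i' = 0 ∨ i' = 1)
    (h : 2 * K + i = 2 * K' + i') : K = K' ∧ i = i' := by
  obtain ⟨K, hK, rfl⟩ := exists_mk K
  obtain ⟨K', hK', rfl⟩ := exists_mk K'
  rcases hi with rfl | rfl <;> rcases hi' with rfl | rfl <;>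
    simp only [two_mk, mk_zero, mk_one, mk_mul, mk_add, mk_eq] at h ⊢
  · exact ⟨h.mono fun n hn => by omega, trivial⟩
  · obtain ⟨n, hn⟩ := h.exists
    omega
  · obtain ⟨n, hn⟩ := h.exists
    omega
  · exact ⟨h.mono fun n hn => by omega, trivial⟩

theorem fact_iff (A : Set MM) {K i : MM} (hi : i = 0 ∨ i = 1) :
    Fact A (2 * K + i) ↔ decode K ⊆ sgn A i := by
  constructor
  · rintro ⟨K', i', h, hi', h2⟩
    obtain ⟨rfl, rfl⟩ := split_inj hi hi' h
    exact h2
  · intro h
    exact ⟨K, i, rfl, hi, h⟩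

theorem mem_omega_iff {x : MM} : x ∈ omega MM ↔ ¬ Infl x := by
  rw [not_infl_iff]
  constructor
  · rintro ⟨n, rfl⟩
    exact ⟨n, rfl⟩
  · rintro ⟨n, rfl⟩
    exact ⟨n, rfl⟩

theorem factW_proof : FactW := by
  intro A hA
  obtain ⟨Ψ, hΨ, hT⟩ := hA
  refine ⟨fun v => ∃ n, ∃ y, (Mem n (v 2) ∧ Mem y (v 3)) ∧ Ψ ![n, y, 2 * v 0 + v 1], ?_, ?_⟩
  · refine Sig1.isSigma ?_
    refine Sig1.ex ?_
    refine Sig1.ex ?_
    refine Sig1.and (Sig1.of_delta0 ?_) ?_
    · refine IsDelta0.and ?_ ?_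
      · exact IsDelta0.mem (IsTerm.var 1) (IsTerm.var 4)
      · exact IsDelta0.mem (IsTerm.var 0) (IsTerm.var 5)
    · refine ((Sig1.of_isSigma hΨ).subst (F := ![fun v : Fin 6 → MM => v 1, fun v => v 0,
        fun v => 2 * v 2 + v 3]) ?_).congr fun v => ?_
      · intro i
        fin_cases i
        · exact IsTerm.var 1
        · exact IsTerm.var 0
        · exact (IsTerm.var 2).two_mul.add (IsTerm.var 3)
      · have : (![Fin.tail v 0, v 0, 2 * Fin.tail (Fin.tail v) 0 + Fin.tail (Fin.tail v) 1] :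
            Fin 3 → MM) = fun i => (![fun v : Fin 6 → MM => v 1, fun v => v 0,
              fun v => 2 * v 2 + v 3] : Fin 3 → (Fin 6 → MM) → MM) i v := by
          funext i
          fin_cases i <;> rfl
        rw [← this]
  · intro K i hi
    rw [← fact_iff A hi]
    have h1 := hT (2 * K + i)
    rw [Set.mem_ofPred_eq] at h1
    rw [h1]
    constructor
    · rintro ⟨n, y, hy, h2⟩
      obtain ⟨p, hp⟩ := exists_code_finset {(n : MM)}
      obtain ⟨q, hq⟩ := exists_code_finset {y}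
      refine ⟨p, q, ⟨n, y, ⟨?_, ?_⟩, h2⟩, ?_, ?_⟩
      · exact (hp _).2 (by simp)
      · exact (hq _).2 (by simp)
      · intro x hx
        have := (hp x).1 hx
        rw [Finset.mem_singleton] at this
        rw [this]
        exact ⟨n, rfl⟩
      · intro x hx
        have := (hq x).1 hx
        rw [Finset.mem_singleton] at this
        rw [this, Set.mem_compl_iff, mem_omega_iff, not_not]
        exact hy
    · rintro ⟨p, q, ⟨n, y, ⟨hn, hy⟩, h2⟩, hp, hq⟩
      obtain ⟨k, hk⟩ := hp hn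
      have h3 := hq hy
      rw [Set.mem_compl_iff, mem_omega_iff, not_not] at h3
      refine ⟨k, y, h3, ?_⟩
      have hk' : (k : MM) = n := hk
      rw [hk']
      exact h2

end H3

theorem factW_proof : FactW := H3.factW_proof

end Pool.Agent.BSig
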